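import Pool.Agent.Q103.EC.Stm2
import Pool.Agent.Q149.GT.H5

/-!
# Project EC, job B5: cross ratios of preperiodic points are algebraic over the cross ratios of a
large stable subset
-/

set_option autoImplicit false

open Finset Polynomial

namespace Pool.Agent.Q224.EC

open Pool.Agent.Q41.GT Pool.Agent.Q41.SU Pool.Agent.W602.GT Pool.Agent.Q103.EC
open Pool.Agent.W277.UH (ConjConst)
open Pool.Agent.Q149.GT

theorem t_crp : Pool.Agent.Q41.SU.S_crc.{0} → S_crp := by
  classical
  intro hcrc k K _ _ _ _ d p q hd hp hq hco P P' hPP' hP hP' hcard c hc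
  let F := IntermediateField.adjoin k (crs P')
  let E := AlgebraicClosure K
  let k₁ := algebraicClosure F E
  have hk₁ : IsAlgClosed k₁ := IsAlgClosure.isAlgClosed F
  let f : K →+* E := algebraMap K E
  have hcs : ∀ c ∈ crs (im f P'), ∃ s : k₁, algebraMap k₁ E s = c := by
    intro c hc
    obtain ⟨c', hc', rfl⟩ := crs_of_im f hc
    have h1 : c' ∈ F := IntermediateField.subset_adjoin k _ hc'
    have h2 : f c' = algebraMap F E ⟨c', h1⟩ := rfl
    refine ⟨algebraMap F k₁ ⟨c', h1⟩, ?_⟩
    rw [h2]
    exact (IsScalarTower.algebraMap_apply F k₁ E _).symm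
  have hpE : (p.map f).natDegree ≤ d := by rw [natDegree_map]; exact hp
  have hqE : (q.map f).natDegree = d := by rw [natDegree_map]; exact hq
  have hcoE : IsCoprime (p.map f) (q.map f) := hco.map (mapRingHom f)
  have hconj : ConjConst k₁ (p.map f) (q.map f) d := by
    apply Pool.Agent.W277.UH.conj_of_cross (p.map f) (q.map f) d hpE hqE hd hcoE (im f P')
      (stab_im f hP') (im f P') (Finset.Subset.refl _)
    · intro x0 h0 x1 h1 x2 h2 x hx n1 n2 n3 n4 n5
      exact hcs _ ⟨x0, h0, x1, h1, x2, h2, x, hx, n1, n2, n3, n4, n5, rfl⟩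
    · rw [Finset.sdiff_self, Finset.card_empty, mul_zero, zero_add, im_card]
      exact hcard
  obtain ⟨s, hs⟩ := crs_const hcrc hd hpE hqE hcoE hconj (stab_im f hP) (crs_im f hc)
  have h1 : IsAlgebraic F (f c) := by
    rw [← hs]
    exact mem_algebraicClosure_iff.1 s.2
  exact (isAlgebraic_algebraMap_iff (algebraMap K E).injective).1 h1

end Pool.Agent.Q224.EC
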