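import Pool.Agent.Q103.EC.Stm1

/-!
# Project EC, job A4: invariance of the logarithmic derivatives of the cross ratios
-/

set_option autoImplicit false

namespace Pool.Agent.Q224.EC

open Finset Polynomial FF
open Pool.Agent.Q41.SU
open Pool.Agent.Q103.EC

theorem app_sub {K : Type} [Field K] (m : Mb K) {a b : K} (ha : m.den a ≠ 0) (hb : m.den b ≠ 0) :
    m.app a - m.app b = m.det * (a - b) / (m.den a * m.den b) := by
  unfold Mb.app
  rw [div_sub_div _ _ ha hb]
  congr 1
  unfold Mb.det Mb.den
  ring

theorem slp_inv {K : Type} [Field K] {J : Type} (m : Mb K) (x y : J → K) (α β γ : K)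
    (hm : m.det ≠ 0) (hd : ∀ l, m.den (x l) ≠ 0) {i j : J} (hij : x i ≠ x j) :
    slp (fun l => m.app (x l)) (fun l => m.det * y l / m.den (x l) ^ 2 +
        (α + β * m.app (x l) + γ * m.app (x l) ^ 2)) i j =
      slp x y i j - m.γ * y i / m.den (x i) - m.γ * y j / m.den (x j) + β +
        γ * (m.app (x i) + m.app (x j)) := by
  have h1 : x i - x j ≠ 0 := sub_ne_zero.2 hij
  have hA := app_sub m (hd i) (hd j)
  have h2 : m.app (x i) - m.app (x j) ≠ 0 := by
    rw [hA]
    exact div_ne_zero (mul_ne_zero hm h1) (mul_ne_zero (hd i) (hd j))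
  unfold slp
  simp only
  rw [div_eq_iff h2]
  have e1 : m.det * y i / m.den (x i) ^ 2 - m.det * y j / m.den (x j) ^ 2 =
      ((y i - y j) / (x i - x j) - m.γ * y i / m.den (x i) - m.γ * y j / m.den (x j)) *
        (m.app (x i) - m.app (x j)) := by
    rw [hA]
    have hi := hd i
    have hj := hd j
    have e2 : m.den (x j) = m.den (x i) - m.γ * (x i - x j) := by
      unfold Mb.den
      ring
    field_simp
    rw [e2]
    ring
  linear_combination e1

theorem t_inv : Pool.Agent.Q103.EC.S_inv := by
  intro K _ J m x y α β γ hm hx hd i j l n hij hln hin hlj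
  unfold lgd
  rw [slp_inv m x y α β γ hm hd (fun h => hij (hx h)),
    slp_inv m x y α β γ hm hd (fun h => hln (hx h)),
    slp_inv m x y α β γ hm hd (fun h => hin (hx h)),
    slp_inv m x y α β γ hm hd (fun h => hlj (hx h))]
  ring

end Pool.Agent.Q224.EC
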