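import Pool.Agent.Q103.EC.Stm1

/-!
# Project EC, job A1: Lipschitz values
-/

set_option autoImplicit false

namespace Pool.Agent.Q224.EC

open Finset Polynomial FF
open Pool.Agent.Q41.SU
open Pool.Agent.Q103.EC

theorem slp_symm {K : Type} [Field K] {J : Type} (x y : J → K) (i j : J) :
    slp x y i j = slp x y j i := by
  unfold slp
  rw [← neg_sub (y j) (y i), ← neg_sub (x j) (x i), neg_div_neg_eq]

theorem slp_sub {K : Type} [Field K] {J : Type} (w y : J → K) (α β γ : K) {l m : J}
    (h : w l ≠ w m) :
    slp w (fun l => y l - (α + β * w l + γ * w l ^ 2)) l m =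
      slp w y l m - (β + γ * (w l + w m)) := by
  have h1 : w l - w m ≠ 0 := sub_ne_zero.2 h
  unfold slp
  simp only
  rw [div_eq_iff h1, sub_mul, div_mul_cancel₀ _ h1]
  ring

/-- a quotient is regular if the order of the numerator is at least that of the denominator -/
theorem reg_div {k K : Type} [Field k] [Field K] [Algebra k K] (v : Place k K) {f g : K}
    (hg : g ≠ 0) (h : f ≠ 0 → v.ord g ≤ v.ord f) : v.Reg (f / g) := by
  by_cases hf : f = 0
  · left
    rw [hf, zero_div]
  · right
    rw [v.ord_div hf hg]
    have := h hf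
    omega

theorem reg_sub {k K : Type} [Field k] [Field K] [Algebra k K] (v : Place k K) {f g : K}
    (hf : v.Reg f) (hg : v.Reg g) : v.Reg (f - g) := by
  rw [sub_eq_add_neg]
  exact v.reg_add hf (v.reg_neg hg)

theorem t_lip : S_lip := by
  classical
  intro k K _ _ _ v J _ w y hw hreg hL hcard
  -- the closest pair
  obtain ⟨a, b, hab⟩ : ∃ a b : J, a ≠ b := Fintype.exists_pair_of_one_lt_card (by omega)
  obtain ⟨p, hp, hmin⟩ := Finset.exists_min_image
    ((Finset.univ : Finset (J × J)).filter fun p => p.1 ≠ p.2)
    (fun p => v.ord (w p.1 - w p.2)) ⟨(a, b), by simpa using hab⟩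
  obtain ⟨i, j⟩ := p
  have hij : i ≠ j := by simpa using hp
  have hmin' : ∀ l m : J, l ≠ m → v.ord (w i - w j) ≤ v.ord (w l - w m) := by
    intro l m hlm
    exact hmin (l, m) (by simpa using hlm)
  obtain ⟨c, hc⟩ : ∃ c : J, c ∉ ({i, j} : Finset J) := by
    by_contra hcon
    push Not at hcon
    have h1 : Fintype.card J ≤ ({i, j} : Finset J).card := by
      rw [← Finset.card_univ]
      exact Finset.card_le_card fun l _ => hcon l
    have h2 := Finset.card_le_two (a := i) (b := j)
    omega
  have hci : c ≠ i := fun h => hc (by simp [h])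
  have hcj : c ≠ j := fun h => hc (by simp [h])
  have hwn : ∀ {l m : J}, l ≠ m → w l ≠ w m := fun h h' => h (hw h')
  -- the interpolation polynomial
  set γ : K := (slp w y i j - slp w y i c) / (w j - w c) with hγ
  set β : K := slp w y i j - γ * (w i + w j) with hβ
  set α : K := y i - β * w i - γ * w i ^ 2 with hα
  refine ⟨α, β, γ, ?_⟩
  set z : J → K := fun l => y l - (α + β * w l + γ * w l ^ 2) with hz
  have hs : ∀ l m : J, l ≠ m → slp w z l m = slp w y l m - (β + γ * (w l + w m)) :=
    fun l m h => slp_sub w y α β γ (hwn h)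
  have hzi : z i = 0 := by
    rw [hz, hα]
    ring
  have hsij : slp w z i j = 0 := by
    rw [hs i j hij, hβ]
    ring
  have hsic : slp w z i c = 0 := by
    rw [hs i c hci.symm, hβ]
    have h1 : w j - w c ≠ 0 := sub_ne_zero.2 (hwn hcj.symm)
    have h2 : γ * (w j - w c) = slp w y i j - slp w y i c := by
      rw [hγ, div_mul_cancel₀ _ h1]
    linear_combination h2
  have hzero : ∀ l : J, l ≠ i → slp w z i l = 0 → z l = 0 := by
    intro l hl h
    unfold slp at h
    rw [hzi, div_eq_zero_iff] at h
    rcases h with h | h
    · rw [zero_sub, neg_eq_zero] at h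
      exact h
    · exact absurd (sub_eq_zero.1 h) (hwn hl.symm)
  have hzj : z j = 0 := hzero j hij.symm hsij
  have hzc : z c = 0 := hzero c hci hsic
  have hsjc : slp w z j c = 0 := by
    unfold slp
    rw [hzj, hzc, sub_zero, zero_div]
  -- regularity of the differences of slopes
  have hLz : ∀ a b l m, a ≠ b → l ≠ m → a ≠ m → l ≠ b →
      v.Reg (slp w z a b + slp w z l m - slp w z a m - slp w z l b) := by
    intro a b l m h1 h2 h3 h4
    have h5 := hL a b l m h1 h2 h3 h4
    unfold lgd at h5
    rw [hs a b h1, hs l m h2, hs a m h3, hs l b h4]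
    have e : slp w y a b - (β + γ * (w a + w b)) + (slp w y l m - (β + γ * (w l + w m))) -
        (slp w y a m - (β + γ * (w a + w m))) - (slp w y l b - (β + γ * (w l + w b))) =
        slp w y a b + slp w y l m - slp w y a m - slp w y l b := by ring
    rw [e]
    exact h5
  have hwji : w j - w i ≠ 0 := sub_ne_zero.2 (hwn hij.symm)
  have hwij : w i - w j ≠ 0 := sub_ne_zero.2 (hwn hij)
  have hordji : v.ord (w j - w i) = v.ord (w i - w j) := by
    rw [← v.ord_neg (w i - w j), neg_sub]
  -- slopes with `i` and `j`
  have hkey : ∀ l : J, l ≠ i → l ≠ j → l ≠ c →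
      v.Reg (slp w z l i) ∧ v.Reg (slp w z l j) := by
    intro l hli hlj hlc
    have h1 := hLz i j l c hij hlc hci.symm hlj
    have h2 := hLz j i l c hij.symm hlc hcj.symm hli
    rw [hsij, hsic] at h1
    rw [slp_symm w z j i, hsij, hsjc] at h2
    have hδ : v.Reg (slp w z l i - slp w z l j) := by
      have e : slp w z l i - slp w z l j =
          (0 + slp w z l c - 0 - slp w z l j) - (0 + slp w z l c - 0 - slp w z l i) := by ring
      rw [e]
      exact reg_sub v h1 h2
    have e1 : slp w z l i * (w l - w i) = z l := by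
      unfold slp
      rw [div_mul_cancel₀ _ (sub_ne_zero.2 (hwn hli)), hzi, sub_zero]
    have e2 : slp w z l j * (w l - w j) = z l := by
      unfold slp
      rw [div_mul_cancel₀ _ (sub_ne_zero.2 (hwn hlj)), hzj, sub_zero]
    constructor
    · have e3 : slp w z l i = -((slp w z l i - slp w z l j) * ((w l - w j) / (w j - w i))) := by
        rw [← mul_div_assoc, ← neg_div, eq_div_iff hwji]
        linear_combination e1 - e2
      rw [e3]
      refine v.reg_neg (v.reg_mul hδ (reg_div v hwji fun _ => ?_))
      rw [hordji]
      exact hmin' l j hlj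
    · have e3 : slp w z l j = (slp w z l i - slp w z l j) * ((w l - w i) / (w i - w j)) := by
        rw [← mul_div_assoc, eq_div_iff hwij]
        linear_combination e2 - e1
      rw [e3]
      exact v.reg_mul hδ (reg_div v hwij fun _ => hmin' l i hli)
  have hRi : ∀ l : J, l ≠ i → v.Reg (slp w z l i) := by
    intro l hli
    by_cases hlj : l = j
    · subst hlj
      left
      rw [slp_symm]
      exact hsij
    by_cases hlc : l = c
    · subst hlc
      left
      rw [slp_symm]
      exact hsic
    exact (hkey l hli hlj hlc).1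
  have hRj : ∀ l : J, l ≠ j → v.Reg (slp w z l j) := by
    intro l hlj
    by_cases hli : l = i
    · subst hli
      left
      exact hsij
    by_cases hlc : l = c
    · subst hlc
      left
      rw [slp_symm]
      exact hsjc
    exact (hkey l hli hlj hlc).2
  constructor
  · intro l
    show v.Reg (z l)
    by_cases hli : l = i
    · subst hli
      left
      exact hzi
    have e1 : z l = slp w z l i * (w l - w i) := by
      unfold slp
      rw [div_mul_cancel₀ _ (sub_ne_zero.2 (hwn hli)), hzi, sub_zero]
    rw [e1]
    exact v.reg_mul (hRi l hli) (reg_sub v (hreg l) (hreg i))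
  · intro l m hlm
    show v.Reg (slp w z l m)
    by_cases hli : l = i
    · subst hli
      rw [slp_symm]
      exact hRi m hlm.symm
    by_cases hlj : l = j
    · subst hlj
      rw [slp_symm]
      exact hRj m hlm.symm
    by_cases hmi : m = i
    · subst hmi
      exact hRi l hlm
    by_cases hmj : m = j
    · subst hmj
      exact hRj l hlm
    have h1 := hLz i j l m hij hlm (fun h => hmi h.symm) hlj
    rw [hsij] at h1
    have e : slp w z l m = (0 + slp w z l m - slp w z i m - slp w z l j) + slp w z m i +
        slp w z l j := by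
      rw [slp_symm w z m i]
      ring
    rw [e]
    exact v.reg_add (v.reg_add h1 (hRi m hmi)) (hRj l hlj)

end Pool.Agent.Q224.EC
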